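import Mathlib

/-!
# A connected compact plane set `X` with dense interior and `A^{(1)}(X)` not contained in `R(X)`

Construction: choose pairwise disjoint closed discs `closedBall (a n) (r n)` in the open unit disc,
with `r n ≤ 2^{-(n+2)}`, accumulating at every point of the closed unit disc outside the open discs
(`exists_discs`).  Inside the `n`-th disc keep only a small closed disc which is internally tangent
to its boundary; the remaining open crescents are removed.  The function is `conj z` on the Swiss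
cheese and constant on every small disc.  It is not in `R(X)` because of the complex measure
`dz` on the unit circle minus `dz` on the circles `sphere (a n) (r n)`.
-/

set_option autoImplicit false

namespace Pool.Agent.Results.MP_a6d22b_an.ConnectedCounterexample

open Set Metric Filter Topology

/-- the `n`-th target ball -/
noncomputable def target (n : ℕ) : Set ℂ :=
  ball (TopologicalSpace.denseSeq ℂ (Nat.unpair n).1) (1 / ((Nat.unpair n).2 + 1 : ℝ))

/-- requirement on the `n`-th disc given the earlier ones -/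
def Good (n : ℕ) (g : Fin n → ℂ × ℝ) (p : ℂ × ℝ) : Prop :=
  0 < p.2 ∧ p.2 ≤ (1 / 2) ^ (n + 2) ∧ closedBall p.1 p.2 ⊆ ball (0 : ℂ) 1 ∧
  (∀ m : Fin n, Disjoint (closedBall p.1 p.2) (closedBall (g m).1 (g m).2)) ∧
  ((target n ∩ (ball (0 : ℂ) 1 \ ⋃ m : Fin n, closedBall (g m).1 (g m).2)).Nonempty →
    closedBall p.1 p.2 ⊆ target n)

/-- inside a nonempty open set one finds small closed discs -/
theorem exists_small_disc {V : Set ℂ} (hV : IsOpen V) (hne : V.Nonempty) {δ : ℝ} (hδ : 0 < δ) :
    ∃ p : ℂ × ℝ, 0 < p.2 ∧ p.2 ≤ δ ∧ closedBall p.1 p.2 ⊆ V := by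
  obtain ⟨a, ha⟩ := hne
  obtain ⟨ε, hε, hball⟩ := Metric.isOpen_iff.1 hV a ha
  refine ⟨(a, min δ (ε / 2)), ?_, min_le_left _ _, ?_⟩
  · exact lt_min hδ (by positivity)
  · refine (closedBall_subset_ball ?_).trans hball
    exact lt_of_le_of_lt (min_le_right _ _) (by linarith)

theorem exists_good (n : ℕ) (g : Fin n → ℂ × ℝ)
    (hg : ∀ m : Fin n, closedBall (g m).1 (g m).2 ⊆ ball (0 : ℂ) 1) :
    ∃ p, Good n g p := by
  set F : Set ℂ := ⋃ m : Fin n, closedBall (g m).1 (g m).2 with hF
  have hFc : IsCompact F := isCompact_iUnion fun m => isCompact_closedBall _ _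
  have hFsub : F ⊆ ball (0 : ℂ) 1 := iUnion_subset hg
  have hopen : IsOpen (ball (0 : ℂ) 1 \ F) := isOpen_ball.sdiff hFc.isClosed
  have hdisj : ∀ {p : ℂ × ℝ}, closedBall p.1 p.2 ⊆ ball (0 : ℂ) 1 \ F →
      ∀ m : Fin n, Disjoint (closedBall p.1 p.2) (closedBall (g m).1 (g m).2) := by
    intro p hp m
    rw [Set.disjoint_left]
    intro z hz hz'
    exact (hp hz).2 (mem_iUnion.2 ⟨m, hz'⟩)
  by_cases hT : (target n ∩ (ball (0 : ℂ) 1 \ F)).Nonempty
  · obtain ⟨p, hp0, hp1, hp2⟩ := exists_small_disc (V := target n ∩ (ball (0 : ℂ) 1 \ F))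
      (isOpen_ball.inter hopen) hT (δ := (1 / 2) ^ (n + 2)) (by positivity)
    refine ⟨p, hp0, hp1, ?_, ?_, ?_⟩
    · exact fun z hz => (hp2 hz).2.1
    · exact hdisj fun z hz => (hp2 hz).2
    · exact fun _ z hz => (hp2 hz).1
  · have hne : (ball (0 : ℂ) 1 \ F).Nonempty := by
      by_contra hcon
      rw [Set.not_nonempty_iff_eq_empty, Set.sdiff_eq_empty] at hcon
      have hFeq : F = ball (0 : ℂ) 1 := Subset.antisymm hFsub hcon
      have hcl : IsClosed (ball (0 : ℂ) 1) := hFeq ▸ hFc.isClosed
      have h1 : (1 : ℂ) ∈ closure (ball (0 : ℂ) 1) := by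
        rw [closure_ball _ one_ne_zero]
        simp
      rw [hcl.closure_eq] at h1
      simp at h1
    obtain ⟨p, hp0, hp1, hp2⟩ := exists_small_disc hopen hne (δ := (1 / 2) ^ (n + 2)) (by positivity)
    refine ⟨p, hp0, hp1, fun z hz => (hp2 hz).1, hdisj hp2, fun h => absurd h hT⟩

open Classical in
/-- choice of a good disc -/
noncomputable def pick (n : ℕ) (g : Fin n → ℂ × ℝ) : ℂ × ℝ :=
  if h : ∃ p, Good n g p then h.choose else 0

/-- the sequence of discs -/
noncomputable def disc : ℕ → ℂ × ℝ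
  | n => pick n (fun m : Fin n => disc m.1)
termination_by n => n
decreasing_by exact m.2

theorem disc_good (n : ℕ) : Good n (fun m : Fin n => disc m.1) (disc n) := by
  induction n using Nat.strong_induction_on with
  | _ n ih =>
    have hex : ∃ p, Good n (fun m : Fin n => disc m.1) p :=
      exists_good n _ fun m => (ih m.1 m.2).2.2.1
    rw [disc.eq_1 n, pick, dif_pos hex]
    exact hex.choose_spec

/-- The system of discs used in the construction. -/
theorem exists_discs : ∃ (a : ℕ → ℂ) (r : ℕ → ℝ), (∀ n, 0 < r n) ∧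
    (∀ n, r n ≤ (1 / 2) ^ (n + 2)) ∧ (∀ n, closedBall (a n) (r n) ⊆ ball (0 : ℂ) 1) ∧
    (∀ m n, m ≠ n → Disjoint (closedBall (a m) (r m)) (closedBall (a n) (r n))) ∧
    (∀ z ∈ closedBall (0 : ℂ) 1, (∀ n, z ∉ ball (a n) (r n)) → ∀ ε > 0,
      ∃ n, closedBall (a n) (r n) ⊆ ball z ε) := by
  have hdis : ∀ m n, m < n → Disjoint (closedBall (disc m).1 (disc m).2)
      (closedBall (disc n).1 (disc n).2) := by
    intro m n hmn
    exact ((disc_good n).2.2.2.1 ⟨m, hmn⟩).symm
  have hdis' : ∀ m n, m ≠ n → Disjoint (closedBall (disc m).1 (disc m).2)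
      (closedBall (disc n).1 (disc n).2) := by
    intro m n hmn
    rcases lt_or_gt_of_ne hmn with h | h
    · exact hdis m n h
    · exact (hdis n m h).symm
  refine ⟨fun n => (disc n).1, fun n => (disc n).2, fun n => (disc_good n).1,
    fun n => (disc_good n).2.1, fun n => (disc_good n).2.2.1, hdis', ?_⟩
  intro z hz hzn ε hε
  obtain ⟨k, hk⟩ := exists_nat_one_div_lt (half_pos hε)
  have hk0 : (0 : ℝ) < 1 / (k + 1 : ℝ) := by positivity
  obtain ⟨i, hi⟩ := (TopologicalSpace.denseRange_denseSeq ℂ).exists_dist_lt z hk0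
  set n := Nat.pair i k with hn
  have htar : target n = ball (TopologicalSpace.denseSeq ℂ i) (1 / (k + 1 : ℝ)) := by
    simp [target, hn]
  have hzT : z ∈ target n := by rw [htar]; exact hi
  have hTsub : target n ⊆ ball z ε := by
    rw [htar]
    intro w hw
    rw [mem_ball] at hw ⊢
    calc dist w z ≤ dist w (TopologicalSpace.denseSeq ℂ i) + dist z (TopologicalSpace.denseSeq ℂ i) :=
          dist_triangle_right _ _ _
      _ < 1 / (k + 1 : ℝ) + 1 / (k + 1 : ℝ) := add_lt_add hw hi
      _ < ε := by linarith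
  refine ⟨n, Subset.trans ((disc_good n).2.2.2.2 ?_) hTsub⟩
  -- the target ball meets the free region
  set F : Set ℂ := ⋃ m : Fin n, closedBall (disc m.1).1 (disc m.1).2 with hF
  by_cases hz1 : z ∈ ball (0 : ℂ) 1
  · by_cases hzF : z ∈ F
    · obtain ⟨l, hl⟩ := mem_iUnion.1 hzF
      set F' : Set ℂ := ⋃ m : {m : Fin n // m ≠ l}, closedBall (disc m.1.1).1 (disc m.1.1).2 with hF'
      have hF'c : IsClosed F' := (isCompact_iUnion fun m => isCompact_closedBall _ _).isClosed
      have hzF' : z ∉ F' := by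
        intro h
        obtain ⟨m, hm⟩ := mem_iUnion.1 h
        have hne : m.1.1 ≠ l.1 := fun h => m.2 (Fin.ext h)
        exact (Set.disjoint_left.1 (hdis' _ _ hne)) hm hl
      have hN : IsOpen (target n ∩ (ball (0 : ℂ) 1 \ F')) :=
        isOpen_ball.inter (isOpen_ball.sdiff hF'c)
      have hzcl : z ∈ closure ((closedBall (disc l.1).1 (disc l.1).2)ᶜ) := by
        rw [closure_compl, interior_closedBall _ (disc_good l.1).1.ne']
        exact hzn l.1
      obtain ⟨w, hw1, hw2⟩ := mem_closure_iff.1 hzcl _ hN ⟨hzT, hz1, hzF'⟩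
      refine ⟨w, hw1.1, hw1.2.1, ?_⟩
      intro hwF
      obtain ⟨m, hm⟩ := mem_iUnion.1 hwF
      by_cases hml : m = l
      · rw [hml] at hm
        exact hw2 hm
      · exact hw1.2.2 (mem_iUnion.2 ⟨⟨m, hml⟩, hm⟩)
    · exact ⟨z, hzT, hz1, hzF⟩
  · have hFc : IsClosed F := (isCompact_iUnion fun m => isCompact_closedBall _ _).isClosed
    have hzF : z ∉ F := by
      intro h
      obtain ⟨m, hm⟩ := mem_iUnion.1 h
      exact hz1 ((disc_good m.1).2.2.1 hm)
    have hN : IsOpen (target n \ F) := isOpen_ball.sdiff hFc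
    have hzcl : z ∈ closure (ball (0 : ℂ) 1) := by
      rw [closure_ball _ one_ne_zero]
      exact hz
    obtain ⟨w, hw1, hw2⟩ := mem_closure_iff.1 hzcl _ hN ⟨hzT, hzF⟩
    exact ⟨w, hw1.1, hw2, hw1.2⟩


/-- A point outside a closed disc: the integral of the Cauchy kernel vanishes. -/
theorem integral_inv_of_notMem {c w : ℂ} {R : ℝ} (hR : 0 ≤ R) (hw : w ∉ closedBall c R) :
    (∮ z in C(c, R), (z - w)⁻¹) = 0 := by
  have hne : ∀ z ∈ closedBall c R, z - w ≠ 0 := by
    intro z hz h
    rw [sub_eq_zero] at h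
    exact hw (h ▸ hz)
  refine Complex.circleIntegral_eq_zero_of_differentiable_on_off_countable hR countable_empty ?_ ?_
  · exact ContinuousOn.inv₀ (by fun_prop) hne
  · intro z hz
    have hz' : z ∈ closedBall c R := ball_subset_closedBall hz.1
    exact (differentiableAt_id.sub_const w).inv (hne z hz')

section
variable {a : ℕ → ℂ} {r : ℕ → ℝ}

/-- The kernel `(z - w)^{-m}` for a pole `w` off the set. -/
theorem hasSum_pole (hr : ∀ n, 0 < r n) (hsub : ∀ n, closedBall (a n) (r n) ⊆ ball (0 : ℂ) 1)
    (hdis : ∀ m n, m ≠ n → Disjoint (closedBall (a m) (r m)) (closedBall (a n) (r n)))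
    {w : ℂ} (hw : w ∉ closedBall (0 : ℂ) 1 ∨ ∃ n, w ∈ ball (a n) (r n)) (m : ℕ) (hm : 0 < m) :
    HasSum (fun n => ∮ z in C(a n, r n), ((z - w) ^ m)⁻¹) (∮ z in C(0, 1), ((z - w) ^ m)⁻¹) := by
  by_cases hm1 : m = 1
  · subst hm1
    simp only [pow_one]
    rcases hw with hw | ⟨n₀, hn₀⟩
    · rw [integral_inv_of_notMem zero_le_one hw]
      have : ∀ n, (∮ z in C(a n, r n), (z - w)⁻¹) = 0 := by
        intro n
        refine integral_inv_of_notMem (hr n).le ?_
        intro h
        exact hw (ball_subset_closedBall (hsub n h))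
      simp_rw [this]
      exact hasSum_zero
    · have h1 : (∮ z in C(0, 1), (z - w)⁻¹) = 2 * Real.pi * Complex.I :=
        circleIntegral.integral_sub_inv_of_mem_ball (hsub n₀ (ball_subset_closedBall hn₀))
      rw [h1]
      have h2 : (∮ z in C(a n₀, r n₀), (z - w)⁻¹) = 2 * Real.pi * Complex.I :=
        circleIntegral.integral_sub_inv_of_mem_ball hn₀
      rw [← h2]
      refine hasSum_single n₀ ?_
      intro n hn
      refine integral_inv_of_notMem (hr n).le ?_
      intro h
      exact Set.disjoint_left.1 (hdis n n₀ hn) h (ball_subset_closedBall hn₀)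
  · have h0 : ∀ (c : ℂ) (R : ℝ), (∮ z in C(c, R), ((z - w) ^ m)⁻¹) = 0 := by
      intro c R
      have h1 := circleIntegral.integral_sub_zpow_of_ne (n := -(m : ℤ)) (by omega) c w R
      simpa [zpow_neg, zpow_natCast] using h1
    simp_rw [h0]
    exact hasSum_zero

/-- The residue identity for rational functions with poles off the set. -/
theorem hasSum_rational (hr : ∀ n, 0 < r n) (hsub : ∀ n, closedBall (a n) (r n) ⊆ ball (0 : ℂ) 1)
    (hdis : ∀ m n, m ≠ n → Disjoint (closedBall (a m) (r m)) (closedBall (a n) (r n))) :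
    ∀ (d : ℕ) (q : Polynomial ℂ), q.natDegree = d → q ≠ 0 →
      (∀ w, q.eval w = 0 → w ∉ closedBall (0 : ℂ) 1 ∨ ∃ n, w ∈ ball (a n) (r n)) →
      ∀ p : Polynomial ℂ,
      HasSum (fun n => ∮ z in C(a n, r n), p.eval z / q.eval z)
        (∮ z in C(0, 1), p.eval z / q.eval z) := by
  intro d
  induction d with
  | zero =>
    intro q hq hq0 _ p
    obtain ⟨c, hc⟩ := Polynomial.natDegree_eq_zero.1 hq
    have h0 : ∀ (b : ℂ) (R : ℝ), 0 ≤ R → (∮ z in C(b, R), p.eval z / q.eval z) = 0 := by
      intro b R hR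
      refine Complex.circleIntegral_eq_zero_of_differentiable_on_off_countable hR
        countable_empty ?_ ?_
      · rw [← hc]
        simp only [Polynomial.eval_C]
        exact (p.continuous.div_const c).continuousOn
      · intro z _
        rw [← hc]
        simp only [Polynomial.eval_C]
        exact p.differentiable.differentiableAt.div_const c
    rw [h0 0 1 zero_le_one]
    have h1 : ∀ n, (∮ z in C(a n, r n), p.eval z / q.eval z) = 0 := fun n => h0 _ _ (hr n).le
    simp_rw [h1]
    exact hasSum_zero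
  | succ d ih =>
    intro q hq hq0 hroots p
    have hdeg : q.degree ≠ 0 := by
      intro h
      have h1 : q.natDegree = 0 := Polynomial.natDegree_eq_of_degree_eq_some (n := 0) (by simpa using h)
      omega
    obtain ⟨w, hw⟩ := IsAlgClosed.exists_root q hdeg
    have hw' : q.eval w = 0 := hw
    obtain ⟨q₂, hq₂, hnd⟩ := Polynomial.exists_eq_pow_rootMultiplicity_mul_and_not_dvd q hq0 w
    set m := Polynomial.rootMultiplicity w q with hm
    have hmpos : 0 < m := (Polynomial.rootMultiplicity_pos hq0).2 hw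
    have hq₂w : q₂.eval w ≠ 0 := by
      intro h
      exact hnd (Polynomial.dvd_iff_isRoot.2 h)
    have hwX := hroots w hw'
    -- reduce the order of the pole
    set α : ℂ := p.eval w / q₂.eval w with hα
    obtain ⟨p₁, hp₁⟩ : Polynomial.X - Polynomial.C w ∣ p - Polynomial.C α * q₂ := by
      rw [Polynomial.dvd_iff_isRoot]
      simp [Polynomial.IsRoot, hα, hq₂w]
    obtain ⟨k, hk⟩ : ∃ k, m = k + 1 := ⟨m - 1, by omega⟩
    set q₃ : Polynomial ℂ := (Polynomial.X - Polynomial.C w) ^ k * q₂ with hq₃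
    have hqq₃ : q = (Polynomial.X - Polynomial.C w) * q₃ := by
      rw [hq₂, hk, hq₃, pow_succ]
      ring
    have hq₃0 : q₃ ≠ 0 := by
      intro h
      rw [h, mul_zero] at hqq₃
      exact hq0 hqq₃
    have hq₃deg : q₃.natDegree = d := by
      have h1 := congrArg Polynomial.natDegree hqq₃
      rw [Polynomial.natDegree_mul (Polynomial.X_sub_C_ne_zero w) hq₃0,
        Polynomial.natDegree_X_sub_C, hq] at h1
      omega
    have hroots₃ : ∀ v, q₃.eval v = 0 → v ∉ closedBall (0 : ℂ) 1 ∨ ∃ n, v ∈ ball (a n) (r n) := by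
      intro v hv
      apply hroots
      rw [hqq₃]
      simp [hv]
    have hI := ih q₃ hq₃deg hq₃0 hroots₃ p₁
    have hP := (hasSum_pole hr hsub hdis hwX m hmpos).mul_left α
    -- on each circle the integral splits
    have hsplit : ∀ (b : ℂ) (R : ℝ), 0 ≤ R →
        (∀ z ∈ sphere b R, q.eval z ≠ 0) →
        (∮ z in C(b, R), p.eval z / q.eval z) =
          α * (∮ z in C(b, R), ((z - w) ^ m)⁻¹) + ∮ z in C(b, R), p₁.eval z / q₃.eval z := by
      intro b R hR hne
      have hne1 : ∀ z ∈ sphere b R, z - w ≠ 0 := by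
        intro z hz h
        apply hne z hz
        rw [hqq₃]
        simp [h]
      have hne3 : ∀ z ∈ sphere b R, q₃.eval z ≠ 0 := by
        intro z hz h
        apply hne z hz
        rw [hqq₃]
        simp [h]
      have hc1 : CircleIntegrable (fun z => α * ((z - w) ^ m)⁻¹) b R := by
        apply ContinuousOn.circleIntegrable hR
        refine continuousOn_const.mul (ContinuousOn.inv₀ (by fun_prop) ?_)
        intro z hz
        exact pow_ne_zero _ (hne1 z hz)
      have hc2 : CircleIntegrable (fun z => p₁.eval z / q₃.eval z) b R := by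
        apply ContinuousOn.circleIntegrable hR
        exact p₁.continuous.continuousOn.div q₃.continuous.continuousOn hne3
      rw [← circleIntegral.integral_const_mul, ← circleIntegral.integral_add hc1 hc2]
      refine circleIntegral.integral_congr hR ?_
      intro z hz
      have h1 := hne1 z hz
      have h3 := hne3 z hz
      have h4 : q₂.eval z ≠ 0 := by
        intro h
        apply h3
        rw [hq₃]
        simp [h]
      have h5 : p.eval z = α * q₂.eval z + (z - w) * p₁.eval z := by
        have := congrArg (Polynomial.eval z) hp₁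
        simp only [Polynomial.eval_sub, Polynomial.eval_mul, Polynomial.eval_C,
          Polynomial.eval_X] at this
        linear_combination this
      simp only
      rw [hqq₃, hq₃, h5, hk]
      simp only [Polynomial.eval_mul, Polynomial.eval_sub, Polynomial.eval_X, Polynomial.eval_C,
        Polynomial.eval_pow]
      field_simp
      ring
    have hsphere : ∀ n, ∀ z ∈ sphere (a n) (r n), q.eval z ≠ 0 := by
      intro n z hz h
      have hzc : z ∈ closedBall (a n) (r n) := sphere_subset_closedBall hz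
      rcases hroots z h with h1 | ⟨l, hl⟩
      · exact h1 (ball_subset_closedBall (hsub n hzc))
      · by_cases hln : l = n
        · rw [hln] at hl
          rw [mem_ball] at hl
          rw [mem_sphere] at hz
          linarith
        · exact Set.disjoint_left.1 (hdis l n hln) (ball_subset_closedBall hl) hzc
    have hsphere1 : ∀ z ∈ sphere (0 : ℂ) 1, q.eval z ≠ 0 := by
      intro z hz h
      rcases hroots z h with h1 | ⟨l, hl⟩
      · exact h1 (sphere_subset_closedBall hz)
      · have := hsub l (ball_subset_closedBall hl)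
        rw [mem_ball] at this
        rw [mem_sphere] at hz
        linarith
    rw [hsplit 0 1 zero_le_one hsphere1]
    have h6 : ∀ n, (∮ z in C(a n, r n), p.eval z / q.eval z) =
        α * (∮ z in C(a n, r n), ((z - w) ^ m)⁻¹) +
          ∮ z in C(a n, r n), p₁.eval z / q₃.eval z :=
      fun n => hsplit _ _ (hr n).le (hsphere n)
    simp_rw [h6]
    exact hP.add hI

/-- the integral of the conjugate over a circle -/
theorem integral_conj (c : ℂ) {R : ℝ} (hR : 0 < R) :
    (∮ z in C(c, R), (starRingEnd ℂ) z) = 2 * Real.pi * Complex.I * (R : ℂ) ^ 2 := by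
  have h1 : (∮ z in C(c, R), (starRingEnd ℂ) z) =
      ∮ z in C(c, R), ((R : ℂ) ^ 2 * (z - c)⁻¹ + (starRingEnd ℂ) c) := by
    refine circleIntegral.integral_congr hR.le ?_
    intro z hz
    rw [mem_sphere, dist_eq_norm] at hz
    have hne : z - c ≠ 0 := by
      intro h
      rw [h, norm_zero] at hz
      linarith
    have h2 : (z - c) * (starRingEnd ℂ) (z - c) = (R : ℂ) ^ 2 := by
      rw [Complex.mul_conj, Complex.normSq_eq_norm_sq, hz]
      push_cast
      ring
    have h3 : (starRingEnd ℂ) (z - c) = (R : ℂ) ^ 2 * (z - c)⁻¹ := by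
      field_simp
      linear_combination h2
    simp only
    rw [← h3, map_sub]
    ring
  rw [h1, circleIntegral.integral_add, circleIntegral.integral_const_mul,
    circleIntegral.integral_sub_center_inv c hR.ne']
  · have h4 : (∮ _ in C(c, R), (starRingEnd ℂ) c) = 0 := by
      refine Complex.circleIntegral_eq_zero_of_differentiable_on_off_countable hR.le
        countable_empty continuousOn_const ?_
      intro z _
      exact differentiableAt_const _
    rw [h4]
    ring
  · apply ContinuousOn.circleIntegrable hR.le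
    refine continuousOn_const.mul (ContinuousOn.inv₀ (by fun_prop) ?_)
    intro z hz h
    rw [mem_sphere, dist_eq_norm, h, norm_zero] at hz
    linarith
  · exact circleIntegrable_const _ _ _

end


/-- the small closed disc, internally tangent to the circle of centre `a` and radius `r` -/
def innerDisc (a : ℂ) (r : ℝ) : Set ℂ := closedBall (a + ((r / 2 : ℝ) : ℂ)) (r / 2)

/-- the point of tangency -/
def tangency (a : ℂ) (r : ℝ) : ℂ := a + (r : ℂ)

theorem inner_subset {a : ℂ} {r : ℝ} (hr : 0 < r) : innerDisc a r ⊆ closedBall a r := by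
  apply closedBall_subset_closedBall'
  rw [dist_eq_norm, add_sub_cancel_left, Complex.norm_real, Real.norm_of_nonneg (by linarith)]
  linarith

theorem tangency_mem_inner {a : ℂ} {r : ℝ} (hr : 0 < r) : tangency a r ∈ innerDisc a r := by
  rw [innerDisc, tangency, mem_closedBall, dist_eq_norm]
  have : a + (r : ℂ) - (a + ((r / 2 : ℝ) : ℂ)) = ((r / 2 : ℝ) : ℂ) := by
    push_cast; ring
  rw [this, Complex.norm_real, Real.norm_of_nonneg (by linarith)]

theorem tangency_mem_sphere {a : ℂ} {r : ℝ} (hr : 0 < r) : tangency a r ∈ sphere a r := by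
  rw [tangency, mem_sphere, dist_eq_norm, add_sub_cancel_left, Complex.norm_real,
    Real.norm_of_nonneg hr.le]

theorem eq_tangency {a z : ℂ} {r : ℝ} (hr : 0 < r) (hz : z ∈ innerDisc a r) (hz' : z ∉ ball a r) :
    z = tangency a r := by
  rw [innerDisc, mem_closedBall, dist_eq_norm] at hz
  rw [mem_ball, dist_eq_norm, not_lt] at hz'
  have h1 : ‖z - (a + ((r / 2 : ℝ) : ℂ))‖ ^ 2 ≤ (r / 2) ^ 2 := by gcongr
  have h2 : r ^ 2 ≤ ‖z - a‖ ^ 2 := by gcongr
  rw [← Complex.normSq_eq_norm_sq, Complex.normSq_apply] at h1 h2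
  simp only [Complex.sub_re, Complex.add_re, Complex.ofReal_re, Complex.sub_im, Complex.add_im,
    Complex.ofReal_im, add_zero] at h1 h2
  set x := z.re - a.re with hx
  set y := z.im - a.im with hy
  have h3 : z.re - (a.re + r / 2) = x - r / 2 := by rw [hx]; ring
  rw [h3] at h1
  have h4 : x * x + y * y ≤ r * x := by nlinarith
  have h5 : r ≤ x := by
    have : r * r ≤ r * x := by nlinarith
    exact le_of_mul_le_mul_left this hr
  have h6 : x ≤ r := by
    have hxpos : 0 < x := by linarith
    have : x * x ≤ r * x := by nlinarith [mul_self_nonneg y]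
    exact le_of_mul_le_mul_right this hxpos
  have h7 : x = r := le_antisymm h6 h5
  have h8 : y = 0 := by
    have : y * y ≤ 0 := by rw [h7] at h4; linarith
    have h9 := mul_self_nonneg y
    exact mul_self_eq_zero.1 (le_antisymm this h9)
  apply Complex.ext
  · simp only [tangency, Complex.add_re, Complex.ofReal_re]
    linarith
  · simp only [tangency, Complex.add_im, Complex.ofReal_im]
    linarith

theorem norm_tangency_sub_le {a z : ℂ} {r : ℝ} (hz : z ∈ innerDisc a r) :
    ‖tangency a r - z‖ ≤ r := by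
  rw [innerDisc, mem_closedBall, dist_eq_norm] at hz
  have hr : 0 ≤ r := by
    have := norm_nonneg (z - (a + ((r / 2 : ℝ) : ℂ)))
    linarith
  have : tangency a r - z = ((r / 2 : ℝ) : ℂ) - (z - (a + ((r / 2 : ℝ) : ℂ))) := by
    rw [tangency]
    push_cast
    ring
  rw [this]
  refine (norm_sub_le _ _).trans ?_
  rw [Complex.norm_real, Real.norm_of_nonneg (by linarith)]
  linarith

section
variable {a : ℕ → ℂ} {r : ℕ → ℝ}

/-- the compact set of the example: the closed unit disc minus the open crescents -/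
def cheese (a : ℕ → ℂ) (r : ℕ → ℝ) : Set ℂ :=
  closedBall (0 : ℂ) 1 \ ⋃ n, (ball (a n) (r n) \ innerDisc (a n) (r n))

theorem isClosed_inner (a : ℂ) (r : ℝ) : IsClosed (innerDisc a r) := isClosed_closedBall

theorem isCompact_cheese : IsCompact (cheese a r) := by
  refine (isCompact_closedBall (0 : ℂ) 1).diff ?_
  exact isOpen_iUnion fun n => isOpen_ball.sdiff (isClosed_inner _ _)

theorem mem_cheese_of_notMem {z : ℂ} (hz : z ∈ closedBall (0 : ℂ) 1)
    (h : ∀ n, z ∉ ball (a n) (r n)) : z ∈ cheese a r := by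
  refine ⟨hz, ?_⟩
  intro hz'
  obtain ⟨n, hn⟩ := mem_iUnion.1 hz'
  exact h n hn.1

theorem inner_of_mem {z : ℂ} (hz : z ∈ cheese a r) {n : ℕ} (hn : z ∈ ball (a n) (r n)) :
    z ∈ innerDisc (a n) (r n) := by
  by_contra h
  exact hz.2 (mem_iUnion.2 ⟨n, hn, h⟩)

variable (hr : ∀ n, 0 < r n) (hsub : ∀ n, closedBall (a n) (r n) ⊆ ball (0 : ℂ) 1)
  (hdis : ∀ m n, m ≠ n → Disjoint (closedBall (a m) (r m)) (closedBall (a n) (r n)))
  (hdense : ∀ z ∈ closedBall (0 : ℂ) 1, (∀ n, z ∉ ball (a n) (r n)) → ∀ ε > 0,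
      ∃ n, closedBall (a n) (r n) ⊆ ball z ε)

include hr hsub hdis in
theorem inner_subset_cheese (n : ℕ) : innerDisc (a n) (r n) ⊆ cheese a r := by
  intro z hz
  have hz1 : z ∈ closedBall (a n) (r n) := inner_subset (hr n) hz
  refine ⟨ball_subset_closedBall (hsub n hz1), ?_⟩
  intro h
  obtain ⟨m, hm⟩ := mem_iUnion.1 h
  by_cases hmn : m = n
  · rw [hmn] at hm
    exact hm.2 hz
  · exact Set.disjoint_left.1 (hdis m n hmn) (ball_subset_closedBall hm.1) hz1

include hsub hdis in
theorem sphere_subset_cheese (n : ℕ) : sphere (a n) (r n) ⊆ cheese a r := by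
  intro z hz
  have hz1 : z ∈ closedBall (a n) (r n) := sphere_subset_closedBall hz
  refine mem_cheese_of_notMem (ball_subset_closedBall (hsub n hz1)) ?_
  intro m hm
  by_cases hmn : m = n
  · rw [hmn] at hm
    rw [mem_ball] at hm
    rw [mem_sphere] at hz
    linarith
  · exact Set.disjoint_left.1 (hdis m n hmn) (ball_subset_closedBall hm) hz1

include hsub in
theorem unit_sphere_subset_cheese : sphere (0 : ℂ) 1 ⊆ cheese a r := by
  intro z hz
  refine mem_cheese_of_notMem (sphere_subset_closedBall hz) ?_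
  intro m hm
  have := hsub m (ball_subset_closedBall hm)
  rw [mem_ball] at this
  rw [mem_sphere] at hz
  linarith

include hr hsub hdis in
theorem ball_subset_interior (n : ℕ) :
    ball (a n + ((r n / 2 : ℝ) : ℂ)) (r n / 2) ⊆ interior (cheese a r) :=
  interior_maximal (ball_subset_closedBall.trans (inner_subset_cheese hr hsub hdis n)) isOpen_ball

include hr hsub hdis hdense in
theorem cheese_subset_closure_interior : cheese a r ⊆ closure (interior (cheese a r)) := by
  intro z hz
  by_cases h : ∀ n, z ∉ ball (a n) (r n)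
  · rw [Metric.mem_closure_iff]
    intro ε hε
    obtain ⟨n, hn⟩ := hdense z hz.1 h ε hε
    refine ⟨a n + ((r n / 2 : ℝ) : ℂ), ball_subset_interior hr hsub hdis n ?_, ?_⟩
    · exact mem_ball_self (half_pos (hr n))
    · rw [dist_comm]
      apply hn
      apply inner_subset (hr n)
      exact mem_closedBall_self (half_pos (hr n)).le
  · push Not at h
    obtain ⟨n, hn⟩ := h
    have h1 := inner_of_mem hz hn
    have h2 : closure (ball (a n + ((r n / 2 : ℝ) : ℂ)) (r n / 2)) = innerDisc (a n) (r n) :=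
      closure_ball _ (half_pos (hr n)).ne'
    rw [← h2] at h1
    exact closure_mono (ball_subset_interior hr hsub hdis n) h1

include hr hdense in
/-- the interior consists of the small open discs -/
theorem exists_of_mem_interior {z : ℂ} (hz : z ∈ interior (cheese a r)) :
    ∃ n, z ∈ ball (a n + ((r n / 2 : ℝ) : ℂ)) (r n / 2) := by
  have hzX : z ∈ cheese a r := interior_subset hz
  by_cases h : ∀ n, z ∉ ball (a n) (r n)
  · exfalso
    obtain ⟨ε, hε, hball⟩ := Metric.isOpen_iff.1 isOpen_interior z hz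
    obtain ⟨n, hn⟩ := hdense z hzX.1 h ε hε
    -- the point opposite to the tangency point side is not in the set
    set w : ℂ := a n - ((r n / 2 : ℝ) : ℂ) with hw
    have hwball : w ∈ ball (a n) (r n) := by
      rw [mem_ball, dist_eq_norm, hw]
      have : a n - ((r n / 2 : ℝ) : ℂ) - a n = -((r n / 2 : ℝ) : ℂ) := by ring
      rw [this, norm_neg, Complex.norm_real, Real.norm_of_nonneg (half_pos (hr n)).le]
      linarith [hr n]
    have hwX : w ∈ cheese a r := interior_subset (hball (hn (ball_subset_closedBall hwball)))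
    have hwi := inner_of_mem hwX hwball
    rw [innerDisc, mem_closedBall, dist_eq_norm, hw] at hwi
    have : a n - ((r n / 2 : ℝ) : ℂ) - (a n + ((r n / 2 : ℝ) : ℂ)) = -((r n : ℝ) : ℂ) := by
      push_cast; ring
    rw [this, norm_neg, Complex.norm_real, Real.norm_of_nonneg (hr n).le] at hwi
    linarith [hr n]
  · push Not at h
    obtain ⟨n, hn⟩ := h
    refine ⟨n, ?_⟩
    have h1 : interior (cheese a r) ∩ ball (a n) (r n) ⊆ innerDisc (a n) (r n) := by
      intro w hw
      exact inner_of_mem (interior_subset hw.1) hw.2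
    have h2 : interior (cheese a r) ∩ ball (a n) (r n) ⊆ interior (innerDisc (a n) (r n)) :=
      interior_maximal h1 (isOpen_interior.inter isOpen_ball)
    have h3 := h2 ⟨hz, hn⟩
    rwa [innerDisc, interior_closedBall _ (half_pos (hr n)).ne'] at h3

/-! ### Connectedness -/

/-- circle together with the small disc -/
def lollipop (a : ℂ) (r : ℝ) : Set ℂ := sphere a r ∪ innerDisc a r

theorem isPreconnected_lollipop {a : ℂ} {r : ℝ} (hr : 0 < r) : IsPreconnected (lollipop a r) := by
  refine IsPreconnected.union (tangency a r) (tangency_mem_sphere hr) (tangency_mem_inner hr) ?_ ?_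
  · apply isPreconnected_sphere
    rw [Complex.rank_real_complex]
    exact Nat.one_lt_ofNat
  · exact (convex_closedBall _ _).isPreconnected

/-- the extension of a relatively open piece of the cheese over the crescents -/
def fill (a : ℕ → ℂ) (r : ℕ → ℝ) (u : Set ℂ) : Set ℂ :=
  {z | (∃ n, z ∈ ball (a n) (r n) ∧ lollipop (a n) (r n) ⊆ u) ∨
    ((∀ n, z ∉ ball (a n) (r n)) ∧ z ∈ u)}

theorem exists_nhds_fill {u : Set ℂ} (hu : IsOpen u)
    (hlol : ∀ n, (lollipop (a n) (r n) ∩ u).Nonempty → lollipop (a n) (r n) ⊆ u)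
    {z : ℂ} (hz : z ∈ fill a r u) : ∃ ε > 0, ball z ε ⊆ fill a r u := by
  rcases hz with ⟨n, hn, hnu⟩ | ⟨hn, hzu⟩
  · obtain ⟨ε, hε, hball⟩ := Metric.isOpen_iff.1 isOpen_ball z hn
    exact ⟨ε, hε, fun w hw => Or.inl ⟨n, hball hw, hnu⟩⟩
  · obtain ⟨ε, hε, hball⟩ := Metric.isOpen_iff.1 hu z hzu
    refine ⟨ε, hε, ?_⟩
    intro w hw
    by_cases h : ∀ n, w ∉ ball (a n) (r n)
    · exact Or.inr ⟨h, hball hw⟩
    · push Not at h
      obtain ⟨n, hwn⟩ := h
      refine Or.inl ⟨n, hwn, hlol n ?_⟩
      -- the ball around `z` meets the circle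
      by_contra hcon
      rw [Set.not_nonempty_iff_eq_empty] at hcon
      have hdisj : ∀ v ∈ ball z ε, v ∉ sphere (a n) (r n) := by
        intro v hv hvs
        have : v ∈ lollipop (a n) (r n) ∩ u := ⟨Or.inl hvs, hball hv⟩
        rw [hcon] at this
        exact this
      have hpre : IsPreconnected (ball z ε) := (convex_ball z ε).isPreconnected
      have hcov : ball z ε ⊆ ball (a n) (r n) ∪ (closedBall (a n) (r n))ᶜ := by
        intro v hv
        by_cases hvb : v ∈ ball (a n) (r n)
        · exact Or.inl hvb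
        · right
          intro hvc
          apply hdisj v hv
          rw [mem_sphere]
          rw [mem_ball, not_lt] at hvb
          exact le_antisymm hvc hvb
      obtain ⟨v, -, hv1, hv2⟩ := hpre _ _ isOpen_ball isClosed_closedBall.isOpen_compl hcov
        ⟨w, hw, hwn⟩ ⟨z, mem_ball_self hε, fun hzc => by
          apply hdisj z (mem_ball_self hε)
          rw [mem_sphere]
          have := hn n
          rw [mem_ball, not_lt] at this
          exact le_antisymm hzc this⟩
      exact hv2 (ball_subset_closedBall hv1)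

include hr hsub hdis in
theorem isPreconnected_cheese : IsPreconnected (cheese a r) := by
  intro u v hu hv hcov ⟨x, hxX, hxu⟩ ⟨y, hyX, hyv⟩
  by_contra hcon
  rw [Set.not_nonempty_iff_eq_empty] at hcon
  have hlolX : ∀ n, lollipop (a n) (r n) ⊆ cheese a r := fun n =>
    union_subset (sphere_subset_cheese hsub hdis n) (inner_subset_cheese hr hsub hdis n)
  have hnot : ∀ z ∈ cheese a r, z ∈ u → z ∉ v := by
    intro z hz hzu hzv
    have : z ∈ cheese a r ∩ (u ∩ v) := ⟨hz, hzu, hzv⟩
    rw [hcon] at this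
    exact this
  have hlol : ∀ (u v : Set ℂ), IsOpen u → IsOpen v → cheese a r ⊆ u ∪ v →
      (∀ z ∈ cheese a r, z ∈ u → z ∉ v) →
      ∀ n, (lollipop (a n) (r n) ∩ u).Nonempty → lollipop (a n) (r n) ⊆ u := by
    intro u v hu hv hcov hnot n hne w hw
    by_contra hwu
    have hwv : w ∈ v := (hcov (hlolX n hw)).resolve_left hwu
    obtain ⟨s, hs, hsu, hsv⟩ := isPreconnected_lollipop (hr n) u v hu hv
      ((hlolX n).trans hcov) hne ⟨w, hw, hwv⟩
    exact hnot s (hlolX n hs) hsu hsv
  have hlolu := hlol u v hu hv hcov hnot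
  have hlolv := hlol v u hv hu (by rwa [union_comm]) (fun z hz hzv hzu => hnot z hz hzu hzv)
  -- open sets
  have hopen : ∀ u : Set ℂ, IsOpen u →
      (∀ n, (lollipop (a n) (r n) ∩ u).Nonempty → lollipop (a n) (r n) ⊆ u) →
      IsOpen (fill a r u) := by
    intro u hu hl
    rw [Metric.isOpen_iff]
    intro z hz
    exact exists_nhds_fill hu hl hz
  have hmem : ∀ (u : Set ℂ),
      (∀ n, (lollipop (a n) (r n) ∩ u).Nonempty → lollipop (a n) (r n) ⊆ u) →
      ∀ z ∈ cheese a r, z ∈ u → z ∈ fill a r u := by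
    intro u hl z hz hzu
    by_cases h : ∀ n, z ∉ ball (a n) (r n)
    · exact Or.inr ⟨h, hzu⟩
    · push Not at h
      obtain ⟨n, hn⟩ := h
      exact Or.inl ⟨n, hn, hl n ⟨z, Or.inr (inner_of_mem hz hn), hzu⟩⟩
  have hcov' : closedBall (0 : ℂ) 1 ⊆ fill a r u ∪ fill a r v := by
    intro z hz
    by_cases h : ∀ n, z ∉ ball (a n) (r n)
    · have hzX := mem_cheese_of_notMem hz h
      rcases hcov hzX with h1 | h1
      · exact Or.inl (Or.inr ⟨h, h1⟩)
      · exact Or.inr (Or.inr ⟨h, h1⟩)
    · push Not at h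
      obtain ⟨n, hn⟩ := h
      have htX : tangency (a n) (r n) ∈ cheese a r :=
        hlolX n (Or.inr (tangency_mem_inner (hr n)))
      rcases hcov htX with h1 | h1
      · exact Or.inl (Or.inl ⟨n, hn, hlolu n ⟨_, Or.inr (tangency_mem_inner (hr n)), h1⟩⟩)
      · exact Or.inr (Or.inl ⟨n, hn, hlolv n ⟨_, Or.inr (tangency_mem_inner (hr n)), h1⟩⟩)
  obtain ⟨z, hz, hzu, hzv⟩ := (convex_closedBall (0 : ℂ) 1).isPreconnected _ _
    (hopen u hu hlolu) (hopen v hv hlolv) hcov'
    ⟨x, hxX.1, hmem u hlolu x hxX hxu⟩ ⟨y, hyX.1, hmem v hlolv y hyX hyv⟩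
  -- the two filled sets are disjoint inside the closed disc
  rcases hzu with ⟨n, hn, hnu⟩ | ⟨hn, hzu⟩
  · rcases hzv with ⟨m, hm, hmv⟩ | ⟨hm, hzv⟩
    · have hmn : m = n := by
        by_contra hmn
        exact Set.disjoint_left.1 (hdis m n hmn) (ball_subset_closedBall hm)
          (ball_subset_closedBall hn)
      subst hmn
      have ht : tangency (a m) (r m) ∈ lollipop (a m) (r m) := Or.inr (tangency_mem_inner (hr m))
      exact hnot _ (hlolX m ht) (hnu ht) (hmv ht)
    · exact hm n hn
  · rcases hzv with ⟨m, hm, hmv⟩ | ⟨hm, hzv⟩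
    · exact hn m hm
    · exact hnot z (mem_cheese_of_notMem hz hn) hzu hzv

end

/-! ### The function -/

/-- the correction terms -/
noncomputable def corr (a : ℕ → ℂ) (r : ℕ → ℝ) (n : ℕ) (z : ℂ) : ℂ :=
  indicator (innerDisc (a n) (r n)) (fun w => tangency (a n) (r n) - w) z

/-- the function of the example -/
noncomputable def fn (a : ℕ → ℂ) (r : ℕ → ℝ) (z : ℂ) : ℂ :=
  (starRingEnd ℂ) (z + ∑' n, corr a r n z)

theorem norm_corr_le {a : ℕ → ℂ} {r : ℕ → ℝ} (hr : ∀ n, 0 < r n) (n : ℕ) (z : ℂ) :
    ‖corr a r n z‖ ≤ r n := by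
  rw [corr]
  by_cases hz : z ∈ innerDisc (a n) (r n)
  · rw [indicator_of_mem hz]
    exact norm_tangency_sub_le hz
  · rw [indicator_of_notMem hz, norm_zero]
    exact (hr n).le

theorem corr_eq_zero {a : ℕ → ℂ} {r : ℕ → ℝ} (hr : ∀ n, 0 < r n) (n : ℕ) {z : ℂ}
    (hz : z ∉ ball (a n) (r n)) : corr a r n z = 0 := by
  rw [corr]
  by_cases hzi : z ∈ innerDisc (a n) (r n)
  · rw [indicator_of_mem hzi, eq_tangency (hr n) hzi hz, sub_self]
  · exact indicator_of_notMem hzi _

theorem continuousOn_corr {a : ℕ → ℂ} {r : ℕ → ℝ} (hr : ∀ n, 0 < r n) (n : ℕ) :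
    ContinuousOn (corr a r n) (cheese a r) := by
  have h1 : ContinuousOn (corr a r n) (innerDisc (a n) (r n)) := by
    have : ContinuousOn (fun w : ℂ => tangency (a n) (r n) - w) (innerDisc (a n) (r n)) := by fun_prop
    refine this.congr ?_
    intro z hz
    rw [corr, indicator_of_mem hz]
  have h2 : ContinuousOn (corr a r n) (ball (a n) (r n))ᶜ := by
    have : ContinuousOn (fun _ : ℂ => (0 : ℂ)) (ball (a n) (r n))ᶜ := continuousOn_const
    refine this.congr ?_
    intro z hz
    exact corr_eq_zero hr n hz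
  have h3 := h1.union_of_isClosed h2 (isClosed_inner _ _) isOpen_ball.isClosed_compl
  refine h3.mono ?_
  intro z hz
  by_cases hzb : z ∈ ball (a n) (r n)
  · exact Or.inl (inner_of_mem hz hzb)
  · exact Or.inr hzb

theorem continuousOn_fn {a : ℕ → ℂ} {r : ℕ → ℝ} (hr : ∀ n, 0 < r n) (hs : Summable r) :
    ContinuousOn (fn a r) (cheese a r) := by
  have h1 : ContinuousOn (fun z => ∑' n, corr a r n z) (cheese a r) :=
    continuousOn_tsum (continuousOn_corr hr) hs fun n z _ => norm_corr_le hr n z
  have h2 : ContinuousOn (fun z => z + ∑' n, corr a r n z) (cheese a r) := continuousOn_id.add h1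
  exact Complex.continuous_conj.comp_continuousOn h2

theorem fn_of_notMem {a : ℕ → ℂ} {r : ℕ → ℝ} (hr : ∀ n, 0 < r n) {z : ℂ}
    (hz : ∀ n, z ∉ ball (a n) (r n)) : fn a r z = (starRingEnd ℂ) z := by
  have : ∀ n, corr a r n z = 0 := fun n => corr_eq_zero hr n (hz n)
  rw [fn]
  simp [this]

theorem fn_of_mem {a : ℕ → ℂ} {r : ℕ → ℝ} (hr : ∀ n, 0 < r n)
    (hdis : ∀ m n, m ≠ n → Disjoint (closedBall (a m) (r m)) (closedBall (a n) (r n)))
    {n : ℕ} {z : ℂ} (hz : z ∈ innerDisc (a n) (r n)) :
    fn a r z = (starRingEnd ℂ) (tangency (a n) (r n)) := by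
  have h0 : ∀ m, m ≠ n → corr a r m z = 0 := by
    intro m hm
    rw [corr]
    apply indicator_of_notMem
    intro h
    exact Set.disjoint_left.1 (hdis m n hm) (inner_subset (hr m) h) (inner_subset (hr n) hz)
  rw [fn, tsum_eq_single n h0, corr, indicator_of_mem hz]
  congr 1
  ring

/-- There is a connected compact plane set `X`, equal to the closure of its interior, and a
function `f` in `A^{(1)}(X)` (with zero derivative on the interior) which is not in `R(X)`. -/
theorem result : ∃ X : Set ℂ, IsCompact X ∧ IsConnected X ∧ closure (interior X) = X ∧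
    ∃ f : ℂ → ℂ,
      -- `f ∈ A(X)`
      ContinuousOn f X ∧ DifferentiableOn ℂ f (interior X) ∧
      -- the derivative on the interior extends continuously to `X`
      (∃ g : ℂ → ℂ, ContinuousOn g X ∧ ∀ z ∈ interior X, deriv f z = g z) ∧
      -- `f ∉ R(X)`
      ¬ (∀ ε > 0, ∃ p q : Polynomial ℂ, (∀ z ∈ X, q.eval z ≠ 0) ∧
          ∀ z ∈ X, ‖f z - p.eval z / q.eval z‖ < ε) := by
  obtain ⟨a, r, hr, hr2, hsub, hdis, hdense⟩ := exists_discs
  have hgeom : HasSum (fun n : ℕ => ((1 : ℝ) / 2) ^ (n + 2)) (1 / 2) := by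
    have h := (hasSum_geometric_of_lt_one (r := (1 / 2 : ℝ)) (by norm_num) (by norm_num)).mul_left
      ((1 / 2 : ℝ) ^ 2)
    convert! h using 1
    · ext n
      rw [pow_add, mul_comm]
    · norm_num
  have hs : Summable r := Summable.of_nonneg_of_le (fun n => (hr n).le) hr2 hgeom.summable
  have hS : ∑' n, r n ≤ 1 / 2 := by
    rw [← hgeom.tsum_eq]
    exact hs.tsum_le_tsum hr2 hgeom.summable
  have hr2' : ∀ n, r n ^ 2 ≤ (1 / 4) * ((1 : ℝ) / 2) ^ (n + 2) := by
    intro n
    have h1 : r n ≤ 1 / 4 := by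
      refine (hr2 n).trans ?_
      calc ((1 : ℝ) / 2) ^ (n + 2) ≤ (1 / 2) ^ 2 :=
            pow_le_pow_of_le_one (by norm_num) (by norm_num) (by omega)
        _ = 1 / 4 := by norm_num
    have h2 := hr2 n
    have h3 := hr n
    calc r n ^ 2 = r n * r n := sq (r n)
      _ ≤ (1 / 4) * ((1 : ℝ) / 2) ^ (n + 2) := by gcongr
  have hs2 : Summable fun n => r n ^ 2 :=
    Summable.of_nonneg_of_le (fun n => sq_nonneg _) hr2' (hgeom.summable.mul_left _)
  have hS2 : ∑' n, r n ^ 2 ≤ 1 / 8 := by
    have h1 : ∑' n, r n ^ 2 ≤ ∑' n : ℕ, (1 / 4) * ((1 : ℝ) / 2) ^ (n + 2) :=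
      hs2.tsum_le_tsum hr2' (hgeom.summable.mul_left _)
    rw [(hgeom.mul_left (1 / 4)).tsum_eq] at h1
    linarith
  have hcont := continuousOn_fn (a := a) hr hs
  have hder : ∀ z ∈ interior (cheese a r), HasDerivAt (fn a r) 0 z := by
    intro z hz
    obtain ⟨n, hn⟩ := exists_of_mem_interior hr hdense hz
    have h1 : fn a r =ᶠ[𝓝 z] fun _ => (starRingEnd ℂ) (tangency (a n) (r n)) := by
      filter_upwards [isOpen_ball.mem_nhds hn] with w hw
      exact fn_of_mem hr hdis (ball_subset_closedBall hw)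
    exact (hasDerivAt_const z _).congr_of_eventuallyEq h1
  refine ⟨cheese a r, isCompact_cheese, ⟨?_, isPreconnected_cheese hr hsub hdis⟩, ?_, fn a r,
    hcont, ?_, ⟨fun _ => 0, continuousOn_const, fun z hz => (hder z hz).deriv⟩, ?_⟩
  · exact ⟨_, inner_subset_cheese hr hsub hdis 0 (tangency_mem_inner (hr 0))⟩
  · refine Subset.antisymm ?_ (cheese_subset_closure_interior hr hsub hdis hdense)
    exact closure_minimal interior_subset isCompact_cheese.isClosed
  · intro z hz
    exact (hder z hz).differentiableAt.differentiableWithinAt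
  · intro H
    obtain ⟨p, q, hq, hpq⟩ := H (1 / 4) (by norm_num)
    have hqX : ∀ w, q.eval w = 0 → w ∉ closedBall (0 : ℂ) 1 ∨ ∃ n, w ∈ ball (a n) (r n) := by
      intro w hw
      by_contra hcon
      push Not at hcon
      exact hq w (mem_cheese_of_notMem hcon.1 hcon.2) hw
    have hq0 : q ≠ 0 := by
      intro h
      apply hq _ (inner_subset_cheese hr hsub hdis 0 (tangency_mem_inner (hr 0)))
      rw [h]
      simp
    have hJ := hasSum_rational hr hsub hdis q.natDegree q rfl hq0 hqX p
    have hs0 := unit_sphere_subset_cheese (r := r) hsub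
    have hsn := sphere_subset_cheese (r := r) hsub hdis
    have hcpq : ContinuousOn (fun z => p.eval z / q.eval z) (cheese a r) :=
      p.continuous.continuousOn.div q.continuous.continuousOn hq
    -- integrals of `f`
    have hI0 : (∮ z in C(0, 1), fn a r z) = 2 * Real.pi * Complex.I := by
      have h1 : (∮ z in C(0, 1), fn a r z) = ∮ z in C(0, 1), (starRingEnd ℂ) z := by
        refine circleIntegral.integral_congr zero_le_one ?_
        intro z hz
        apply fn_of_notMem hr
        intro n hn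
        have := hsub n (ball_subset_closedBall hn)
        rw [mem_ball] at this
        rw [mem_sphere] at hz
        linarith
      rw [h1, integral_conj 0 zero_lt_one]
      simp
    have hIn : ∀ n, (∮ z in C(a n, r n), fn a r z) = 2 * Real.pi * Complex.I * ((r n) ^ 2 : ℝ) := by
      intro n
      have h1 : (∮ z in C(a n, r n), fn a r z) = ∮ z in C(a n, r n), (starRingEnd ℂ) z := by
        refine circleIntegral.integral_congr (hr n).le ?_
        intro z hz
        apply fn_of_notMem hr
        intro m hm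
        by_cases hmn : m = n
        · rw [hmn] at hm
          rw [mem_ball] at hm
          rw [mem_sphere] at hz
          linarith
        · exact Set.disjoint_left.1 (hdis m n hmn) (ball_subset_closedBall hm)
            (sphere_subset_closedBall hz)
      rw [h1, integral_conj (a n) (hr n)]
      push_cast
      ring
    -- differences
    have hdiff : ∀ (b : ℂ) (R : ℝ), 0 ≤ R → sphere b R ⊆ cheese a r →
        ‖(∮ z in C(b, R), fn a r z) - ∮ z in C(b, R), p.eval z / q.eval z‖
          ≤ 2 * Real.pi * R * (1 / 4) := by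
      intro b R hR hbR
      rw [← circleIntegral.integral_sub ((hcont.mono hbR).circleIntegrable hR)
        ((hcpq.mono hbR).circleIntegrable hR)]
      refine circleIntegral.norm_integral_le_of_norm_le_const hR ?_
      intro z hz
      exact (hpq z (hbR hz)).le
    have hsumI : HasSum (fun n => (∮ z in C(a n, r n), fn a r z))
        (2 * Real.pi * Complex.I * ((∑' n, r n ^ 2 : ℝ) : ℂ)) := by
      simp_rw [hIn]
      exact (Complex.hasSum_ofReal.2 hs2.hasSum).mul_left _
    have hsumD := hsumI.sub hJ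
    have hb1 := hsumD.norm_le_of_bounded (hs.hasSum.mul_left (2 * Real.pi * (1 / 4))) (by
      intro n
      have := hdiff (a n) (r n) (hr n).le (hsn n)
      linarith)
    have hb0 := hdiff 0 1 zero_le_one hs0
    rw [hI0] at hb0
    set σ : ℝ := ∑' n, r n ^ 2 with hσ
    set J : ℂ := ∮ z in C(0, 1), p.eval z / q.eval z with hJdef
    have hfin : ‖2 * Real.pi * Complex.I * ((1 - σ : ℝ) : ℂ)‖ ≤
        2 * Real.pi * (1 / 4) + 2 * Real.pi * (1 / 4) * ∑' n, r n := by
      have h1 : 2 * Real.pi * Complex.I * ((1 - σ : ℝ) : ℂ) =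
          (2 * Real.pi * Complex.I - J) - (2 * Real.pi * Complex.I * (σ : ℂ) - J) := by
        push_cast; ring
      rw [h1]
      refine (norm_sub_le _ _).trans ?_
      have := add_le_add hb0 hb1
      simpa using this
    have hσ1 : 0 ≤ 1 - σ := by linarith
    rw [norm_mul, norm_mul, norm_mul, Complex.norm_I, Complex.norm_real, Complex.norm_real,
      Real.norm_of_nonneg hσ1, Real.norm_of_nonneg Real.pi_pos.le] at hfin
    simp only [Complex.norm_ofNat, mul_one] at hfin
    have hpi := Real.pi_pos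
    nlinarith

end Pool.Agent.Results.MP_a6d22b_an.ConnectedCounterexample
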